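import Mathlib

/-!
# Long and short edges: definitions
-/

namespace Pool.Agent.W953.BLS

/-- `p` is a non-degenerate straight-line drawing of the graph `G` in the Euclidean plane: distinct
vertices are mapped to distinct points, and no vertex lies on the segment of an edge of which it is
not an endpoint (crossings of edges are allowed). -/
structure IsDrawing {V : Type} (G : SimpleGraph V) (p : V → EuclideanSpace ℝ (Fin 2)) : Prop where
  inj : Function.Injective p
  avoid : ∀ u v w, G.Adj u v → w ≠ u → w ≠ v → p w ∉ segment ℝ (p u) (p v)

/-- Long/short edge realizability of the graph `G` with the set `S` of short edges (the other edges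
of `G` are the long ones): there is a non-degenerate straight-line drawing of `G` in which the
edges of length at most one are exactly the short ones. -/
def LongShort {V : Type} (G : SimpleGraph V) (S : Set (Sym2 V)) : Prop :=
  ∃ p : V → EuclideanSpace ℝ (Fin 2), IsDrawing G p ∧
    ∀ u v, G.Adj u v → (s(u, v) ∈ S ↔ dist (p u) (p v) ≤ 1)

/-- `M` is a Boolean matrix with `m` rows and `n` columns, given by the list of its rows. -/
def IsMat (m n : ℕ) (M : List (List Bool)) : Prop := M.length = m ∧ ∀ row ∈ M, row.length = n

/-- The set of short edges of the complete bipartite graph `K_{m,n}` encoded by a matrix: the edge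
between the vertex `i` of the first class and the vertex `j` of the second class is short if the
entry `(i, j)` is `true`. -/
def shortEdges (m n : ℕ) (M : List (List Bool)) : Set (Sym2 (Fin m ⊕ Fin n)) :=
  {e | ∃ (i : Fin m) (j : Fin n), e = s(Sum.inl i, Sum.inr j) ∧
    (M.getD i []).getD j false = true}

/-- The decision problem: `M` is an `m × n` Boolean matrix with `m, n ≥ 1`, and the complete
bipartite graph `K_{m,n}` with the short edges given by `M` is long/short realizable. -/
def KLongShort (M : List (List Bool)) : Prop :=
  ∃ m n : ℕ, 1 ≤ m ∧ 1 ≤ n ∧ IsMat m n M ∧
    LongShort (completeBipartiteGraph (Fin m) (Fin n)) (shortEdges m n M)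

end Pool.Agent.W953.BLS
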