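import Pool.Agent.W953.BLS.Defs
import Pool.Agent.H606R2.GPP.SegF
import Pool.Agent.H625R2.BallG

/-!
# Long and short edges: coordinates, soundness
-/

namespace Pool.Agent.W953.BLS

open Pool.Agent.NPC.ER.GPP Pool.Agent.NPC.ER.Pat

/-- Squared distance. -/
def dsq (p q : ℝ × ℝ) : ℝ := (p.1 - q.1) ^ 2 + (p.2 - q.2) ^ 2

/-- The coordinate form of the realizability of a matrix: the vertex `i < m` is a row, the vertex
`m + j`, `j < n`, is a column. -/
def P1 (m n : ℕ) (M : List (List Bool)) (q : ℕ → ℝ × ℝ) : Prop :=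
  (∀ u < m + n, ∀ v < m + n, u ≠ v → q u ≠ q v) ∧
  (∀ i < m, ∀ j < n, ∀ w < m + n, w ≠ i → w ≠ m + j → q w ∉ segment ℝ (q i) (q (m + j))) ∧
  ∀ i < m, ∀ j < n, (ent M i j = true ↔ dsq (q i) (q (m + j)) ≤ 1)

/-- Coordinates of the Euclidean plane. -/
def co : EuclideanSpace ℝ (Fin 2) →ₗ[ℝ] ℝ × ℝ where
  toFun z := (z 0, z 1)
  map_add' _ _ := rfl
  map_smul' _ _ := rfl

theorem co_inj : Function.Injective co := by
  intro a b h
  have h1 : a 0 = b 0 := congrArg Prod.fst h
  have h2 : a 1 = b 1 := congrArg Prod.snd h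
  ext i
  fin_cases i
  · exact h1
  · exact h2

theorem co_seg (a b c : EuclideanSpace ℝ (Fin 2)) :
    co c ∈ segment ℝ (co a) (co b) ↔ c ∈ segment ℝ a b := by
  have h := image_segment ℝ co.toAffineMap a b
  have h1 : segment ℝ (co a) (co b) = co '' segment ℝ a b := h.symm
  rw [h1]
  exact co_inj.mem_set_image

theorem co_dist (a b : EuclideanSpace ℝ (Fin 2)) : dist a b ≤ 1 ↔ dsq (co a) (co b) ≤ 1 := by
  rw [EuclideanSpace.dist_eq, Fin.sum_univ_two, Real.dist_eq, Real.dist_eq, sq_abs, sq_abs]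
  unfold dsq co
  simp only [LinearMap.coe_mk, AddHom.coe_mk]
  rw [Real.sqrt_le_one]

/-- The point with given coordinates. -/
noncomputable def oc (z : ℝ × ℝ) : EuclideanSpace ℝ (Fin 2) := !₂[z.1, z.2]

theorem co_oc (z : ℝ × ℝ) : co (oc z) = z := by
  unfold co oc
  simp

/-- The vertex of the bipartite graph with a given number. -/
def num (m n : ℕ) : Fin m ⊕ Fin n → ℕ := Sum.elim (fun i => i.val) (fun j => m + j.val)

theorem num_inj {m n : ℕ} {u v : Fin m ⊕ Fin n} (h : num m n u = num m n v) : u = v := by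
  rcases u with u | u <;> rcases v with v | v <;> simp only [num, Sum.elim_inl, Sum.elim_inr] at h
  · exact congrArg _ (Fin.ext h)
  · have := u.2; omega
  · have := v.2; omega
  · exact congrArg _ (Fin.ext (by omega))

theorem num_lt {m n : ℕ} (u : Fin m ⊕ Fin n) : num m n u < m + n := by
  rcases u with u | u
  · have := u.2
    simp only [num, Sum.elim_inl]; omega
  · have := u.2
    simp only [num, Sum.elim_inr]; omega

theorem longShort_iff {m n : ℕ} (M : List (List Bool)) :
    LongShort (completeBipartiteGraph (Fin m) (Fin n)) (shortEdges m n M) ↔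
      ∃ q, P1 m n M q := by
  have hadj : ∀ (i : Fin m) (j : Fin n),
      (completeBipartiteGraph (Fin m) (Fin n)).Adj (Sum.inl i) (Sum.inr j) := by
    intro i j; simp
  have hadj' : ∀ (i : Fin m) (j : Fin n),
      (completeBipartiteGraph (Fin m) (Fin n)).Adj (Sum.inr j) (Sum.inl i) := by
    intro i j; simp
  have hshort : ∀ (i : Fin m) (j : Fin n), s(Sum.inl i, Sum.inr j) ∈ shortEdges m n M ↔
      ent M i.val j.val = true := by
    intro i j
    unfold shortEdges ent
    constructor
    · rintro ⟨i', j', h1, h2⟩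
      have h3 : (Sum.inl i : Fin m ⊕ Fin n) = Sum.inl i' ∧
          (Sum.inr j : Fin m ⊕ Fin n) = Sum.inr j' := by
        rw [Sym2.eq_iff] at h1
        rcases h1 with h1 | ⟨h1, -⟩
        · exact h1
        · exact absurd h1 (by simp)
      have e1 : i = i' := Sum.inl_injective h3.1
      have e2 : j = j' := Sum.inr_injective h3.2
      rw [e1, e2]
      exact h2
    · intro h
      exact ⟨i, j, rfl, h⟩
  constructor
  · rintro ⟨p, hp, hl⟩
    let dec : ℕ → Option (Fin m ⊕ Fin n) := fun k =>
      if h : k < m then some (Sum.inl ⟨k, h⟩) else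
        if h' : k - m < n then some (Sum.inr ⟨k - m, h'⟩) else none
    have hdec : ∀ k < m + n, ∃ v, dec k = some v ∧ num m n v = k := by
      intro k hk
      by_cases h : k < m
      · exact ⟨Sum.inl ⟨k, h⟩, by simp only [dec, dif_pos h], rfl⟩
      · have h' : k - m < n := by omega
        refine ⟨Sum.inr ⟨k - m, h'⟩, by simp only [dec, dif_neg h, dif_pos h'], ?_⟩
        simp only [num, Sum.elim_inr]
        omega
    let q : ℕ → ℝ × ℝ := fun k => ((dec k).map (fun v => co (p v))).getD 0
    have hq : ∀ v, q (num m n v) = co (p v) := by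
      intro v
      obtain ⟨v', h1, h2⟩ := hdec _ (num_lt v)
      have h3 := num_inj h2
      simp only [q, h1, h3, Option.map_some, Option.getD_some]
    refine ⟨q, ?_, ?_, ?_⟩
    · intro u hu v hv huv h
      obtain ⟨u', -, rfl⟩ := hdec u hu
      obtain ⟨v', -, rfl⟩ := hdec v hv
      rw [hq, hq] at h
      exact huv (congrArg _ (hp.inj (co_inj h)))
    · intro i hi j hj w hw h1 h2
      obtain ⟨w', -, rfl⟩ := hdec w hw
      have e1 : q i = co (p (Sum.inl ⟨i, hi⟩)) := hq (Sum.inl ⟨i, hi⟩)
      have e2 : q (m + j) = co (p (Sum.inr ⟨j, hj⟩)) := hq (Sum.inr ⟨j, hj⟩)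
      rw [hq, e1, e2, co_seg]
      refine hp.avoid _ _ _ (hadj _ _) ?_ ?_
      · rintro rfl; exact h1 rfl
      · rintro rfl; exact h2 rfl
    · intro i hi j hj
      have e1 : q i = co (p (Sum.inl ⟨i, hi⟩)) := hq (Sum.inl ⟨i, hi⟩)
      have e2 : q (m + j) = co (p (Sum.inr ⟨j, hj⟩)) := hq (Sum.inr ⟨j, hj⟩)
      rw [e1, e2, ← co_dist, ← hl _ _ (hadj _ _), hshort]
  · rintro ⟨q, h1, h2, h3⟩
    refine ⟨fun v => oc (q (num m n v)), ⟨?_, ?_⟩, ?_⟩
    · intro u v h
      have h' : oc (q (num m n u)) = oc (q (num m n v)) := h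
      have h4 : q (num m n u) = q (num m n v) := by
        have := congrArg co h'
        rwa [co_oc, co_oc] at this
      by_contra hne
      exact h1 _ (num_lt u) _ (num_lt v) (fun h5 => hne (num_inj h5)) h4
    · have key : ∀ (i : Fin m) (j : Fin n) w, w ≠ Sum.inl i → w ≠ Sum.inr j →
          oc (q (num m n w)) ∉ segment ℝ (oc (q (num m n (Sum.inl i))))
            (oc (q (num m n (Sum.inr j)))) := by
        intro i j w hwi hwj
        rw [← co_seg, co_oc, co_oc, co_oc]
        refine h2 _ i.2 _ j.2 _ (num_lt w) ?_ ?_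
        · intro h
          exact hwi (num_inj (m := m) (n := n) h)
        · intro h
          exact hwj (num_inj (m := m) (n := n) h)
      rintro (i | j) (i' | j') w hadj hw1 hw2
      · simp at hadj
      · exact key i j' w hw1 hw2
      · rw [segment_symm]
        exact key i' j w hw2 hw1
      · simp at hadj
    · rintro (i | j) (i' | j') hadj
      · simp at hadj
      · rw [hshort, co_dist, co_oc, co_oc]
        exact h3 _ i.2 _ j'.2
      · rw [Sym2.eq_swap, dist_comm, hshort, co_dist, co_oc, co_oc]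
        exact h3 _ i'.2 _ j.2
      · simp at hadj

end Pool.Agent.W953.BLS
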