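import Pool.Agent.W953.BLS.Geo
import Pool.Agent.H625R2.BallFin

/-!
# Long and short edges: soundness and completeness of the reduction
-/

namespace Pool.Agent.W953.BLS

open Pool.Agent.NPC.ER.GPP Pool.Agent.NPC.ER.Pat Filter Topology

/-- The reduction: every column of the sign matrix is replaced by itself and its complement; one
row and one column of long edges are added. -/
def red (M : List (List Bool)) : List (List Bool) :=
  (List.replicate (2 * wid M + 1) false) ::
    M.map fun row => false :: (row ++ row.map fun b => !b)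

theorem red_length (M : List (List Bool)) : (red M).length = M.length + 1 := by
  simp [red]

theorem red_mat {m : ℕ} {M : List (List Bool)} (hM : Rect m M) :
    IsMat (M.length + 1) (2 * wid M + 1) (red M) := by
  refine ⟨red_length M, ?_⟩
  intro row hrow
  unfold red at hrow
  rw [List.mem_cons, List.mem_map] at hrow
  rcases hrow with rfl | ⟨r, hr, rfl⟩
  · simp
  · obtain ⟨i, hi, rfl⟩ := List.mem_iff_getElem.1 hr
    have := wid_eq hM hi
    simp only [List.length_cons, List.length_append, List.length_map, this]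
    omega

theorem ent_red_zero (M : List (List Bool)) (j : ℕ) : ent (red M) 0 j = false := by
  unfold ent red
  rw [List.getD_cons_zero]
  by_cases hj : j < 2 * wid M + 1
  · rw [List.getD_eq_getElem _ _ (by simpa using hj)]
    simp
  · rw [List.getD_eq_default _ _ (by simpa using hj)]

theorem ent_red_succ {m : ℕ} {M : List (List Bool)} (hM : Rect m M) {i : ℕ} (hi : i < M.length)
    (j : ℕ) : ent (red M) (i + 1) j = if j = 0 then false else
      if j ≤ wid M then ent M i (j - 1) else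
      if j ≤ 2 * wid M then !ent M i (j - 1 - wid M) else false := by
  have hw := wid_eq hM hi
  have h1 : (red M).getD (i + 1) [] = false :: (M[i] ++ M[i].map fun b => !b) := by
    unfold red
    rw [List.getD_cons_succ, List.getD_eq_getElem _ _ (by simpa using hi)]
    simp
  have h2 : ent (red M) (i + 1) j = (false :: (M[i] ++ M[i].map fun b => !b)).getD j false := by
    unfold ent
    rw [h1]
  rw [h2]
  rcases j with _ | j
  · simp
  · rw [List.getD_cons_succ]
    simp only [Nat.add_eq_zero_iff, one_ne_zero, and_false, if_false, Nat.add_sub_cancel]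
    split_ifs with a b
    · have hj : j < M[i].length := by omega
      rw [List.getD_append _ _ _ _ hj, List.getD_eq_getElem _ _ hj, ent_eq hi hj]
    · have hj : M[i].length ≤ j := by omega
      rw [List.getD_append_right _ _ _ _ hj, List.getD_eq_getElem _ _ (by simp; omega)]
      have hj2 : j - M[i].length < M[i].length := by omega
      rw [List.getElem_map]
      rw [← hw, ent_eq hi hj2]
    · rw [List.getD_eq_default]
      simp
      omega

/-- Soundness. -/
theorem SR_of_P1 {m : ℕ} {M : List (List Bool)} (hM : Rect m M)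
    {q : ℕ → ℝ × ℝ} (h : P1 (M.length + 1) (2 * wid M + 1) (red M) q) : SR 3 M := by
  obtain ⟨-, -, h3⟩ := h
  -- the points
  obtain ⟨y, hy⟩ : ∃ y : ℕ → ℝ × ℝ, y = fun i => q (i + 1) := ⟨_, rfl⟩
  obtain ⟨a, ha⟩ : ∃ a : ℕ → ℝ × ℝ, a = fun j => q (M.length + 1 + (j + 1)) := ⟨_, rfl⟩
  obtain ⟨b, hb⟩ : ∃ b : ℕ → ℝ × ℝ, b = fun j => q (M.length + 1 + (j + 1 + wid M)) := ⟨_, rfl⟩
  refine ⟨fun i => ![(y i).1, (y i).2, 1], fun j => ![2 * ((a j).1 - (b j).1),
    2 * ((a j).2 - (b j).2), (b j).1 ^ 2 + (b j).2 ^ 2 - (a j).1 ^ 2 - (a j).2 ^ 2], ?_⟩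
  intro i hi j hj
  have hw := wid_eq hM hi
  have hj' : j < wid M := by omega
  have k1 := h3 (i + 1) (by omega) (j + 1) (by omega)
  have k2 := h3 (i + 1) (by omega) (j + 1 + wid M) (by omega)
  rw [ent_red_succ hM hi] at k1 k2
  rw [if_neg (by omega), if_pos (by omega), Nat.add_sub_cancel] at k1
  rw [if_neg (by omega), if_neg (by omega), if_pos (by omega)] at k2
  rw [show j + 1 + wid M - 1 - wid M = j by omega] at k2
  rw [ent_eq hi hj] at k1 k2
  have e : (![(y i).1, (y i).2, 1] ⬝ᵥ ![2 * ((a j).1 - (b j).1),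
      2 * ((a j).2 - (b j).2), (b j).1 ^ 2 + (b j).2 ^ 2 - (a j).1 ^ 2 - (a j).2 ^ 2] : ℝ) =
      dsq (y i) (b j) - dsq (y i) (a j) := by
    rw [dotProduct, Fin.sum_univ_three]
    unfold dsq
    simp only [Matrix.cons_val_zero, Matrix.cons_val_one, Matrix.cons_val]
    ring
  show 0 < sgn M[i][j] * (![(y i).1, (y i).2, 1] ⬝ᵥ ![2 * ((a j).1 - (b j).1),
      2 * ((a j).2 - (b j).2), (b j).1 ^ 2 + (b j).2 ^ 2 - (a j).1 ^ 2 - (a j).2 ^ 2] : ℝ)
  rw [e, hy, ha, hb]
  cases hb : M[i][j]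
  · rw [hb] at k1 k2
    have c1 : ¬ dsq (q (i + 1)) (q (M.length + 1 + (j + 1))) ≤ 1 := fun h => by
      simpa using k1.2 h
    have c2 : dsq (q (i + 1)) (q (M.length + 1 + (j + 1 + wid M))) ≤ 1 := k2.1 rfl
    rw [sgn_false]
    simp only
    linarith
  · rw [hb] at k1 k2
    have c1 : ¬ dsq (q (i + 1)) (q (M.length + 1 + (j + 1 + wid M))) ≤ 1 := fun h => by
      simpa using k2.2 h
    have c2 : dsq (q (i + 1)) (q (M.length + 1 + (j + 1))) ≤ 1 := k1.1 rfl
    rw [sgn_true]
    simp only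
    linarith

/-! ### Perturbation -/

theorem ev_quad (A B C : ℝ) (h : A ≠ 0 ∨ B ≠ 0 ∨ C ≠ 0) :
    ∀ᶠ δ : ℝ in 𝓝[>] 0, A + B * δ + C * δ ^ 2 ≠ 0 := by
  by_cases hA : A = 0
  · by_cases hB : B = 0
    · have hC : C ≠ 0 := by tauto
      filter_upwards [self_mem_nhdsWithin] with δ hδ
      have : (0 : ℝ) < δ := hδ
      rw [hA, hB]
      simp only [zero_add, zero_mul]
      positivity
    · have h1 : Tendsto (fun δ : ℝ => B + C * δ) (𝓝[>] 0) (𝓝 (B + C * 0)) := by
        apply tendsto_nhdsWithin_of_tendsto_nhds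
        exact (Continuous.tendsto (by fun_prop) 0)
      rw [mul_zero, add_zero] at h1
      filter_upwards [self_mem_nhdsWithin, h1.eventually_ne hB] with δ hδ h2
      have h3 : (0 : ℝ) < δ := hδ
      have h4 : A + B * δ + C * δ ^ 2 = δ * (B + C * δ) := by rw [hA]; ring
      rw [h4]
      exact mul_ne_zero h3.ne' h2
  · have h1 : Tendsto (fun δ : ℝ => A + B * δ + C * δ ^ 2) (𝓝[>] 0)
        (𝓝 (A + B * 0 + C * 0 ^ 2)) := by
      apply tendsto_nhdsWithin_of_tendsto_nhds
      exact (Continuous.tendsto (by fun_prop) 0)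
    have h2 : A + B * 0 + C * 0 ^ 2 = A := by ring
    rw [h2] at h1
    exact h1.eventually_ne hA

/-- The perturbed point. -/
noncomputable def pert (q : ℕ → ℝ × ℝ) (δ : ℝ) (u : ℕ) : ℝ × ℝ :=
  ((q u).1 + δ * u, (q u).2 + δ * (u : ℝ) ^ 2)

theorem ev_ne (q : ℕ → ℝ × ℝ) {u v : ℕ} (h : u ≠ v) :
    ∀ᶠ δ : ℝ in 𝓝[>] 0, pert q δ u ≠ pert q δ v := by
  have h0 : (u : ℝ) - v ≠ 0 := sub_ne_zero.2 (by exact_mod_cast h)
  filter_upwards [ev_quad ((q u).1 - (q v).1) ((u : ℝ) - v) 0 (Or.inr (Or.inl h0))] with δ hδ he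
  apply hδ
  have : (pert q δ u).1 = (pert q δ v).1 := congrArg Prod.fst he
  unfold pert at this
  simp only at this
  linarith

theorem ev_D (q : ℕ → ℝ × ℝ) {u v w : ℕ} (h1 : u ≠ v) (h2 : u ≠ w) (h3 : v ≠ w) :
    ∀ᶠ δ : ℝ in 𝓝[>] 0, D (pert q δ u) (pert q δ v) (pert q δ w) ≠ 0 := by
  have a1 : (v : ℝ) - u ≠ 0 := sub_ne_zero.2 (by exact_mod_cast h1.symm)
  have a2 : (w : ℝ) - u ≠ 0 := sub_ne_zero.2 (by exact_mod_cast h2.symm)
  have a3 : (w : ℝ) - v ≠ 0 := sub_ne_zero.2 (by exact_mod_cast h3.symm)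
  have hC : ((v : ℝ) - u) * ((w : ℝ) - u) * ((w : ℝ) - v) ≠ 0 :=
    mul_ne_zero (mul_ne_zero a1 a2) a3
  filter_upwards [ev_quad (D (q u) (q v) (q w))
    (((v : ℝ) - u) * ((q w).2 - (q u).2) + ((q v).1 - (q u).1) * ((w : ℝ) ^ 2 - (u : ℝ) ^ 2) -
      ((v : ℝ) ^ 2 - (u : ℝ) ^ 2) * ((q w).1 - (q u).1) -
      ((q v).2 - (q u).2) * ((w : ℝ) - u)) _ (Or.inr (Or.inr hC))] with δ hδ he
  apply hδ
  rw [← he]
  unfold D pert
  simp only
  ring

theorem cont_dsq (q : ℕ → ℝ × ℝ) (u v : ℕ) :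
    Tendsto (fun δ : ℝ => dsq (pert q δ u) (pert q δ v)) (𝓝[>] 0) (𝓝 (dsq (q u) (q v))) := by
  have h : Continuous (fun δ : ℝ => dsq (pert q δ u) (pert q δ v)) := by
    unfold dsq pert
    simp only
    fun_prop
  have h1 := h.tendsto 0
  have h2 : dsq (pert q 0 u) (pert q 0 v) = dsq (q u) (q v) := by
    unfold pert
    simp
  rw [h2] at h1
  exact tendsto_nhdsWithin_of_tendsto_nhds h1

/-- Realizations with strict inequalities can be made non-degenerate. -/
theorem P1_of_strict {m n : ℕ} {M : List (List Bool)} {q : ℕ → ℝ × ℝ}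
    (h : ∀ i < m, ∀ j < n, (ent M i j = true → dsq (q i) (q (m + j)) < 1) ∧
      (ent M i j = false → 1 < dsq (q i) (q (m + j)))) : ∃ q, P1 m n M q := by
  have e1 : ∀ᶠ δ : ℝ in 𝓝[>] 0, ∀ u < m + n, ∀ v < m + n, u ≠ v →
      pert q δ u ≠ pert q δ v := by
    have : ∀ᶠ δ : ℝ in 𝓝[>] 0, ∀ x ∈ Finset.range (m + n) ×ˢ Finset.range (m + n),
        x.1 ≠ x.2 → pert q δ x.1 ≠ pert q δ x.2 := by
      rw [Finset.eventually_all]
      intro x _
      by_cases hx : x.1 = x.2
      · exact Eventually.of_forall fun δ h => absurd hx h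
      · filter_upwards [ev_ne q hx] with δ h _ using h
    filter_upwards [this] with δ hδ u hu v hv huv
    exact hδ (u, v) (by simp [hu, hv]) huv
  have e2 : ∀ᶠ δ : ℝ in 𝓝[>] 0, ∀ i < m, ∀ j < n, ∀ w < m + n, w ≠ i → w ≠ m + j →
      D (pert q δ i) (pert q δ (m + j)) (pert q δ w) ≠ 0 := by
    have : ∀ᶠ δ : ℝ in 𝓝[>] 0, ∀ x ∈ Finset.range m ×ˢ Finset.range n ×ˢ Finset.range (m + n),
        x.2.2 ≠ x.1 → x.2.2 ≠ m + x.2.1 →
        D (pert q δ x.1) (pert q δ (m + x.2.1)) (pert q δ x.2.2) ≠ 0 := by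
      rw [Finset.eventually_all]
      intro x hx
      simp only [Finset.mem_product, Finset.mem_range] at hx
      by_cases hx1 : x.2.2 = x.1
      · exact Eventually.of_forall fun δ h => absurd hx1 h
      · by_cases hx2 : x.2.2 = m + x.2.1
        · exact Eventually.of_forall fun δ _ h => absurd hx2 h
        · filter_upwards [ev_D q (u := x.1) (v := m + x.2.1) (w := x.2.2) (by omega)
            (fun h => hx1 h.symm) (fun h => hx2 h.symm)] with δ h _ _ using h
    filter_upwards [this] with δ hδ i hi j hj w hw h1 h2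
    exact hδ (i, j, w) (by simp [hi, hj, hw]) h1 h2
  have e3 : ∀ᶠ δ : ℝ in 𝓝[>] 0, ∀ i < m, ∀ j < n,
      (ent M i j = true ↔ dsq (pert q δ i) (pert q δ (m + j)) ≤ 1) := by
    have : ∀ᶠ δ : ℝ in 𝓝[>] 0, ∀ x ∈ Finset.range m ×ˢ Finset.range n,
        (ent M x.1 x.2 = true ↔ dsq (pert q δ x.1) (pert q δ (m + x.2)) ≤ 1) := by
      rw [Finset.eventually_all]
      intro x hx
      simp only [Finset.mem_product, Finset.mem_range] at hx
      have h1 := h x.1 hx.1 x.2 hx.2
      cases hb : ent M x.1 x.2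
      · have h2 := h1.2 hb
        filter_upwards [(cont_dsq q x.1 (m + x.2)).eventually (lt_mem_nhds h2)] with δ hδ
        simp only [Bool.false_eq_true, false_iff, not_le]
        exact hδ
      · have h2 := h1.1 hb
        filter_upwards [(cont_dsq q x.1 (m + x.2)).eventually (gt_mem_nhds h2)] with δ hδ
        simp only [true_iff]
        exact le_of_lt hδ
    filter_upwards [this] with δ hδ i hi j hj
    exact hδ (i, j) (by simp [hi, hj])
  obtain ⟨δ, h1, h2, h3⟩ := (e1.and (e2.and e3)).exists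
  refine ⟨pert q δ, h1, ?_, h3⟩
  intro i hi j hj w hw hwi hwj hs
  exact h2 i hi j hj w hw hwi hwj (mem_seg_iff.1 hs).1

/-! ### Completeness -/

theorem ev_pos (L Q : ℝ) (hL : 0 < L) : ∀ᶠ ε : ℝ in 𝓝[>] 0, 0 < ε * (L + ε * Q) := by
  have h1 : Tendsto (fun ε : ℝ => L + ε * Q) (𝓝[>] 0) (𝓝 (L + 0 * Q)) := by
    apply tendsto_nhdsWithin_of_tendsto_nhds
    exact (Continuous.tendsto (by fun_prop) 0)
  rw [zero_mul, add_zero] at h1
  filter_upwards [self_mem_nhdsWithin, h1.eventually (lt_mem_nhds hL)] with ε hε h2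
  exact mul_pos hε h2

/-- Completeness. -/
theorem P1_of_SRN {m : ℕ} {M : List (List Bool)} (hM : Rect m M) (h : SRN 2 M) :
    ∃ q, P1 (M.length + 1) (2 * wid M + 1) (red M) q := by
  obtain ⟨y, η, c, hη, h⟩ := h
  -- normalisation
  obtain ⟨r, hr⟩ : ∃ r : ℕ → ℝ, r = fun j => Real.sqrt (η j 0 ^ 2 + η j 1 ^ 2) := ⟨_, rfl⟩
  have hr0 : ∀ j, 0 < r j := by
    intro j
    rw [hr]
    apply Real.sqrt_pos.2
    have := hη j
    positivity
  have hr2 : ∀ j, r j ^ 2 = η j 0 ^ 2 + η j 1 ^ 2 := by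
    intro j
    rw [hr]
    exact Real.sq_sqrt (by positivity)
  obtain ⟨e0, he0⟩ : ∃ e : ℕ → ℝ, e = fun j => η j 0 / r j := ⟨_, rfl⟩
  obtain ⟨e1, he1⟩ : ∃ e : ℕ → ℝ, e = fun j => η j 1 / r j := ⟨_, rfl⟩
  obtain ⟨k, hk⟩ : ∃ k : ℕ → ℝ, k = fun j => c j / r j := ⟨_, rfl⟩
  have hun : ∀ j, e0 j ^ 2 + e1 j ^ 2 = 1 := by
    intro j
    rw [he0, he1]
    simp only
    rw [div_pow, div_pow, ← add_div, ← hr2]
    exact div_self (by have := hr0 j; positivity)
  have hL : ∀ i (hi : i < M.length) j (hj : j < M[i].length),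
      0 < sgn M[i][j] * (k j + (y i 0 * e0 j + y i 1 * e1 j)) := by
    intro i hi j hj
    have h1 := h i hi j hj
    have h2 : sgn M[i][j] * (k j + (y i 0 * e0 j + y i 1 * e1 j)) =
        sgn M[i][j] * (c j + ∑ l ∈ Finset.range 2, y i l * η j l) / r j := by
      rw [Finset.sum_range_succ, Finset.sum_range_succ, Finset.sum_range_zero, he0, he1, hk]
      simp only
      ring
    rw [h2]
    exact div_pos h1 (hr0 j)
  -- the points
  let q : ℝ → ℕ → ℝ × ℝ := fun ε u =>
    if u = 0 then (10, 0) else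
    if u ≤ M.length then (ε * y (u - 1) 0, ε * y (u - 1) 1) else
    if u = M.length + 1 then (-10, 0) else
    if u ≤ M.length + 1 + wid M then
      ((1 - ε * k (u - M.length - 2)) * e0 (u - M.length - 2),
        (1 - ε * k (u - M.length - 2)) * e1 (u - M.length - 2)) else
      (-(1 + ε * k (u - M.length - 2 - wid M)) * e0 (u - M.length - 2 - wid M),
        -(1 + ε * k (u - M.length - 2 - wid M)) * e1 (u - M.length - 2 - wid M))
  have q0 : ∀ ε, q ε 0 = (10, 0) := fun ε => if_pos rfl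
  have q1 : ∀ ε i, i < M.length → q ε (i + 1) = (ε * y i 0, ε * y i 1) := by
    intro ε i hi
    simp only [q]
    rw [if_neg (by omega), if_pos (by omega), Nat.add_sub_cancel]
  have q2 : ∀ ε, q ε (M.length + 1 + 0) = (-10, 0) := by
    intro ε
    simp [q]
  have q3 : ∀ ε j, j < wid M → q ε (M.length + 1 + (j + 1)) =
      ((1 - ε * k j) * e0 j, (1 - ε * k j) * e1 j) := by
    intro ε j hj
    simp only [q]
    rw [if_neg (by omega), if_neg (by omega), if_neg (by omega), if_pos (by omega),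
      show M.length + 1 + (j + 1) - M.length - 2 = j by omega]
  have q4 : ∀ ε j, j < wid M → q ε (M.length + 1 + (j + 1 + wid M)) =
      (-(1 + ε * k j) * e0 j, -(1 + ε * k j) * e1 j) := by
    intro ε j hj
    simp only [q]
    rw [if_neg (by omega), if_neg (by omega), if_neg (by omega), if_neg (by omega),
      show M.length + 1 + (j + 1 + wid M) - M.length - 2 - wid M = j by omega]
  -- the columns near the unit circle
  have f1 : ∀ᶠ ε : ℝ in 𝓝[>] 0, ∀ j ∈ Finset.range (wid M),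
      |ε * k j| < 1 := by
    rw [Finset.eventually_all]
    intro j _
    have h1 : Tendsto (fun ε : ℝ => |ε * k j|) (𝓝[>] 0) (𝓝 |0 * k j|) := by
      apply tendsto_nhdsWithin_of_tendsto_nhds
      exact (Continuous.tendsto (by fun_prop) 0)
    rw [zero_mul, abs_zero] at h1
    exact h1.eventually (gt_mem_nhds one_pos)
  have f2 : ∀ᶠ ε : ℝ in 𝓝[>] 0, ∀ i ∈ Finset.range M.length,
      ε ^ 2 * (y i 0 ^ 2 + y i 1 ^ 2) < 1 := by
    rw [Finset.eventually_all]
    intro i _
    have h1 : Tendsto (fun ε : ℝ => ε ^ 2 * (y i 0 ^ 2 + y i 1 ^ 2)) (𝓝[>] 0)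
        (𝓝 (0 ^ 2 * (y i 0 ^ 2 + y i 1 ^ 2))) := by
      apply tendsto_nhdsWithin_of_tendsto_nhds
      exact (Continuous.tendsto (by fun_prop) 0)
    have h2 : (0 : ℝ) ^ 2 * (y i 0 ^ 2 + y i 1 ^ 2) = 0 := by ring
    rw [h2] at h1
    exact h1.eventually (gt_mem_nhds one_pos)
  have f3 : ∀ᶠ ε : ℝ in 𝓝[>] 0, ∀ x ∈ Finset.range M.length ×ˢ Finset.range (wid M),
      0 < ε * (2 * (sgn (ent M x.1 x.2) * (k x.2 + (y x.1 0 * e0 x.2 + y x.1 1 * e1 x.2))) +
        ε * (-(y x.1 0 ^ 2 + y x.1 1 ^ 2 + k x.2 ^ 2 +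
          2 * k x.2 * (y x.1 0 * e0 x.2 + y x.1 1 * e1 x.2)))) ∧
      0 < ε * (2 * (sgn (ent M x.1 x.2) * (k x.2 + (y x.1 0 * e0 x.2 + y x.1 1 * e1 x.2))) +
        ε * (y x.1 0 ^ 2 + y x.1 1 ^ 2 + k x.2 ^ 2 +
          2 * k x.2 * (y x.1 0 * e0 x.2 + y x.1 1 * e1 x.2))) := by
    rw [Finset.eventually_all]
    intro x hx
    simp only [Finset.mem_product, Finset.mem_range] at hx
    have hj : x.2 < (M[x.1]'hx.1).length := by rw [wid_eq hM hx.1]; exact hx.2
    have h1 := hL x.1 hx.1 x.2 hj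
    rw [← ent_eq hx.1 hj] at h1
    exact (ev_pos _ _ (by linarith)).and (ev_pos _ _ (by linarith))
  obtain ⟨ε, h1, h2, h3⟩ := (f1.and (f2.and f3)).exists
  refine P1_of_strict (q := q ε) ?_
  intro i hi j hj
  rcases i with _ | i
  · -- the far row
    rw [ent_red_zero]
    refine ⟨fun h => absurd h (by decide), fun _ => ?_⟩
    rw [q0]
    rcases j with _ | j
    · rw [q2]
      unfold dsq
      norm_num
    · by_cases hjw : j < wid M
      · rw [q3 _ _ hjw]
        have a1 := h1 j (Finset.mem_range.2 hjw)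
        rw [abs_lt] at a1
        have a2 := hun j
        have a3 : (1 - ε * k j) * e0 j ≤ 2 := by
          have : e0 j ≤ 1 := by nlinarith [sq_nonneg (e1 j), sq_nonneg (e0 j - 1)]
          have : -1 ≤ e0 j := by nlinarith [sq_nonneg (e1 j), sq_nonneg (e0 j + 1)]
          nlinarith
        unfold dsq
        simp only
        nlinarith [sq_nonneg ((0 : ℝ) - (1 - ε * k j) * e1 j)]
      · obtain ⟨j', rfl⟩ : ∃ j', j = j' + wid M := ⟨j - wid M, by omega⟩
        have hj' : j' < wid M := by omega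
        rw [show j' + wid M + 1 = j' + 1 + wid M by omega, q4 _ _ hj']
        have a1 := h1 j' (Finset.mem_range.2 hj')
        rw [abs_lt] at a1
        have a2 := hun j'
        have a3 : -(1 + ε * k j') * e0 j' ≤ 2 := by
          have : e0 j' ≤ 1 := by nlinarith [sq_nonneg (e1 j'), sq_nonneg (e0 j' - 1)]
          have : -1 ≤ e0 j' := by nlinarith [sq_nonneg (e1 j'), sq_nonneg (e0 j' + 1)]
          nlinarith
        unfold dsq
        simp only
        nlinarith [sq_nonneg ((0 : ℝ) - -(1 + ε * k j') * e1 j')]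
  · have hi' : i < M.length := by omega
    rw [ent_red_succ hM hi', q1 _ _ hi']
    rcases j with _ | j
    · rw [if_pos rfl]
      refine ⟨fun h => absurd h (by decide), fun _ => ?_⟩
      rw [q2]
      have a1 := h2 i (Finset.mem_range.2 hi')
      unfold dsq
      simp only
      nlinarith [sq_nonneg (ε * y i 0 + 1), sq_nonneg (ε * y i 0), sq_nonneg (ε * y i 1)]
    · rw [if_neg (by omega)]
      by_cases hjw : j < wid M
      · rw [if_pos (by omega), Nat.add_sub_cancel, q3 _ _ hjw]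
        have a1 := h3 (i, j) (by simp [hi', hjw])
        have a2 := hun j
        have e : dsq (ε * y i 0, ε * y i 1) ((1 - ε * k j) * e0 j, (1 - ε * k j) * e1 j) =
            1 - 2 * ε * (k j + (y i 0 * e0 j + y i 1 * e1 j)) +
            ε ^ 2 * (y i 0 ^ 2 + y i 1 ^ 2 + k j ^ 2 +
              2 * k j * (y i 0 * e0 j + y i 1 * e1 j)) := by
          unfold dsq
          simp only
          linear_combination (1 - ε * k j) ^ 2 * a2
        rw [e]
        cases hb : ent M i j
        · rw [hb, sgn_false] at a1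
          refine ⟨fun h => absurd h (by decide), fun _ => ?_⟩
          nlinarith [a1.2]
        · rw [hb, sgn_true] at a1
          refine ⟨fun _ => ?_, fun h => absurd h (by decide)⟩
          nlinarith [a1.1]
      · obtain ⟨j', rfl⟩ : ∃ j', j = j' + wid M := ⟨j - wid M, by omega⟩
        have hj' : j' < wid M := by omega
        rw [if_neg (by omega), if_pos (by omega),
          show j' + wid M + 1 - 1 - wid M = j' by omega,
          show j' + wid M + 1 = j' + 1 + wid M by omega, q4 _ _ hj']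
        have a1 := h3 (i, j') (by simp [hi', hj'])
        have a2 := hun j'
        have e : dsq (ε * y i 0, ε * y i 1)
            (-(1 + ε * k j') * e0 j', -(1 + ε * k j') * e1 j') =
            1 + 2 * ε * (k j' + (y i 0 * e0 j' + y i 1 * e1 j')) +
            ε ^ 2 * (y i 0 ^ 2 + y i 1 ^ 2 + k j' ^ 2 +
              2 * k j' * (y i 0 * e0 j' + y i 1 * e1 j')) := by
          unfold dsq
          simp only
          linear_combination (1 + ε * k j') ^ 2 * a2
        rw [e]
        cases hb : ent M i j'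
        · rw [hb, sgn_false] at a1
          refine ⟨fun _ => ?_, fun h => absurd h (by decide)⟩
          nlinarith [a1.1]
        · rw [hb, sgn_true] at a1
          refine ⟨fun h => absurd h (by decide), fun _ => ?_⟩
          nlinarith [a1.2]

end Pool.Agent.W953.BLS
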