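import Pool.Agent.W953.BLS.Hard
import Pool.Agent.H606R2.GPP.Member

/-!
# Long and short edges: membership in `∃ℝ`, polynomial time
-/

namespace Pool.Agent.NPC.W953BLS

open Pool.Agent.NPC Pool.Agent.NPC.ER Pool.Agent.NPC.ER.GPP Pool.Agent.NPC.ER.Pat
open Pool.Agent.W953.BLS
open Pool.Agent.NPC.H670R2 (ff tt conj holds_ff holds_tt holds_conj poly_conj poly_tvar poly_tadd
  poly_tmul poly_tneg poly_eq poly_lt poly_not poly_and poly_or poly_le not_etr_ff)

/-- The squared distance of two points. -/
def sqT (u v : ℕ) : Tm :=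
  Tm.add (Tm.mul (subT (2 * u) (2 * v)) (subT (2 * u) (2 * v)))
    (Tm.mul (subT (2 * u + 1) (2 * v + 1)) (subT (2 * u + 1) (2 * v + 1)))

theorem eval_sqT (x : ℕ → ℝ) (u v : ℕ) : (sqT u v).eval x = dsq (vx x u) (vx x v) := by
  simp only [sqT, subT, Tm.eval, dsq, vx]
  ring

/-- The edge is short if and only if `b` is true. -/
def shF (b : Bool) (u v : ℕ) : Fm :=
  if b = true then Fm.le (sqT u v) Tm.one else Fm.not (Fm.le (sqT u v) Tm.one)

theorem holds_shF (x : ℕ → ℝ) (b : Bool) (u v : ℕ) :
    (shF b u v).Holds x ↔ (b = true ↔ dsq (vx x u) (vx x v) ≤ 1) := by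
  unfold shF
  cases b
  · simp [Fm.Holds, eval_sqT, Tm.eval]
  · simp [Fm.Holds, eval_sqT, Tm.eval]

/-- The list of conditions. -/
def conds (M : List (List Bool)) : List Fm :=
  ((List.range (M.length + wid M)).flatMap fun u => (List.range (M.length + wid M)).map fun v =>
    if u = v then tt else neF u v) ++
  (((List.range M.length).flatMap fun i => (List.range (wid M)).flatMap fun j =>
    (List.range (M.length + wid M)).map fun w =>
      if w = i ∨ w = M.length + j then tt else avF i (M.length + j) w) ++
  ((List.range M.length).flatMap fun i => (List.range (wid M)).map fun j =>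
    shF (ent M i j) i (M.length + j)))

theorem conds_iff (M : List (List Bool)) (x : ℕ → ℝ) :
    (∀ φ ∈ conds M, φ.Holds x) ↔ P1 M.length (wid M) M (vx x) := by
  unfold conds P1
  constructor
  · intro h
    refine ⟨?_, ?_, ?_⟩
    · intro u hu v hv huv
      have := h _ (List.mem_append.2 (Or.inl (List.mem_flatMap.2 ⟨u, List.mem_range.2 hu,
        List.mem_map.2 ⟨v, List.mem_range.2 hv, rfl⟩⟩)))
      rwa [if_neg huv, holds_neF] at this
    · intro i hi j hj w hw h1 h2
      have := h _ (List.mem_append.2 (Or.inr (List.mem_append.2 (Or.inl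
        (List.mem_flatMap.2 ⟨i, List.mem_range.2 hi, List.mem_flatMap.2 ⟨j, List.mem_range.2 hj,
        List.mem_map.2 ⟨w, List.mem_range.2 hw, rfl⟩⟩⟩)))))
      rwa [if_neg (by rintro (h3 | h3); exacts [h1 h3, h2 h3]), holds_avF] at this
    · intro i hi j hj
      have := h _ (List.mem_append.2 (Or.inr (List.mem_append.2 (Or.inr
        (List.mem_flatMap.2 ⟨i, List.mem_range.2 hi, List.mem_map.2 ⟨j, List.mem_range.2 hj,
        rfl⟩⟩)))))
      rwa [holds_shF] at this
  · rintro ⟨h1, h2, h3⟩ φ hφ
    rw [List.mem_append, List.mem_append, List.mem_flatMap, List.mem_flatMap,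
      List.mem_flatMap] at hφ
    rcases hφ with ⟨u, hu, hφ⟩ | ⟨i, hi, hφ⟩ | ⟨i, hi, hφ⟩
    · obtain ⟨v, hv, rfl⟩ := List.mem_map.1 hφ
      rw [List.mem_range] at hu hv
      split_ifs with h
      · exact holds_tt x
      · rw [holds_neF]
        exact h1 u hu v hv h
    · obtain ⟨j, hj, hφ⟩ := List.mem_flatMap.1 hφ
      obtain ⟨w, hw, rfl⟩ := List.mem_map.1 hφ
      rw [List.mem_range] at hi hj hw
      split_ifs with h
      · exact holds_tt x
      · push Not at h
        rw [holds_avF]
        exact h2 i hi j hj w hw h.1 h.2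
    · obtain ⟨j, hj, rfl⟩ := List.mem_map.1 hφ
      rw [List.mem_range] at hi hj
      rw [holds_shF]
      exact h3 i hi j hj

/-- The test for matrices with at least one row and one column. -/
def okB (M : List (List Bool)) : Bool :=
  (decide (1 ≤ M.length) && decide (1 ≤ wid M)) && M.all fun row => decide (row.length = wid M)

theorem okB_iff (M : List (List Bool)) : okB M = true ↔
    1 ≤ M.length ∧ 1 ≤ wid M ∧ IsMat M.length (wid M) M := by
  unfold okB IsMat
  simp only [List.all_eq_true, decide_eq_true_eq, Bool.and_eq_true, and_assoc, true_and]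

/-- The existential sentence. -/
def form (M : List (List Bool)) : Fm := if okB M = true then conj (conds M) else ff

theorem kLongShort_iff (M : List (List Bool)) : KLongShort M ↔ okB M = true ∧
    ∃ q, P1 M.length (wid M) M q := by
  rw [okB_iff]
  unfold KLongShort
  constructor
  · rintro ⟨m, n, hm, hn, hM, h⟩
    have e1 : M.length = m := hM.1
    have e2 : wid M = n := by
      have hne : M ≠ [] := by
        rintro rfl
        simp at e1
        omega
      exact hM.2 _ (Pool.Agent.NPC.ER.Pat.headD_mem hne)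
    subst e1 e2
    exact ⟨⟨hm, hn, hM⟩, (longShort_iff M).1 h⟩
  · rintro ⟨⟨hm, hn, hM⟩, h⟩
    exact ⟨_, _, hm, hn, hM, (longShort_iff M).2 h⟩

theorem form_correct (M : List (List Bool)) : KLongShort M ↔ ETR (form M) := by
  rw [kLongShort_iff]
  unfold form
  split_ifs with h
  · unfold ETR
    simp only [holds_conj, conds_iff, h, true_and]
    constructor
    · rintro ⟨p, hp⟩
      refine ⟨fun n => if n % 2 = 0 then (p (n / 2)).1 else (p (n / 2)).2, ?_⟩
      have hv : vx (fun n => if n % 2 = 0 then (p (n / 2)).1 else (p (n / 2)).2) = p := by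
        funext v
        unfold vx
        have e1 : 2 * v % 2 = 0 := by omega
        have e2 : (2 * v + 1) % 2 = 1 := by omega
        have e3 : 2 * v / 2 = v := by omega
        have e4 : (2 * v + 1) / 2 = v := by omega
        simp only [e1, e2, e3, e4]
        rfl
      rw [hv]
      exact hp
    · rintro ⟨x, hx⟩
      exact ⟨vx x, hx⟩
  · constructor
    · rintro ⟨h1, -⟩
      exact absurd h1 h
    · intro h1
      exact absurd h1 not_etr_ff

/-! ### Polynomial time -/

section

variable {α : Type} [TEnc α]

theorem poly_sqT {u v : α → ℕ} (hu : Poly u) (hv : Poly v) : Poly (fun a => sqT (u a) (v a)) :=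
  poly_tadd (poly_tmul (poly_subT (poly_two hu) (poly_two hv))
      (poly_subT (poly_two hu) (poly_two hv)))
    (poly_tmul (poly_subT (Poly.succ (poly_two hu)) (Poly.succ (poly_two hv)))
      (poly_subT (Poly.succ (poly_two hu)) (Poly.succ (poly_two hv))))

theorem poly_shF {b : α → Bool} {u v : α → ℕ} (hb : Poly b) (hu : Poly u) (hv : Poly v) :
    Poly (fun a => shF (b a) (u a) (v a)) :=
  Poly.ite (Poly.decide_bool hb) (poly_le (poly_sqT hu hv) (Poly.const _))
    (poly_not (poly_le (poly_sqT hu hv) (Poly.const _)))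

theorem poly_conds : Poly conds := by
  have hL : UPoly (fun M : List (List Bool) => M.length) := UPoly.length Poly.id
  have hW : UPoly (fun M : List (List Bool) => wid M) := upoly_wid Poly.id
  have hN : UPoly (fun M : List (List Bool) => M.length + wid M) := UPoly.add hL hW
  refine Poly.append ?_ (Poly.append ?_ ?_)
  · refine Poly.flatMap (F := fun (M : List (List Bool)) (u : ℕ) =>
      (List.range (M.length + wid M)).map fun v => if u = v then tt else neF u v) hN.range ?_
    refine Poly.map (F := fun (p : List (List Bool) × ℕ) (v : ℕ) =>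
      if p.2 = v then tt else neF p.2 v) (hN.range.comp (Poly.fst Poly.id)) ?_
    exact Poly.ite (Poly.decide_eq (Poly.snd (Poly.fst Poly.id)) (Poly.snd Poly.id))
      (Poly.const _) (poly_neF (Poly.snd (Poly.fst Poly.id)) (Poly.snd Poly.id))
  · refine Poly.flatMap (F := fun (M : List (List Bool)) (i : ℕ) =>
      (List.range (wid M)).flatMap fun j => (List.range (M.length + wid M)).map fun w =>
      if w = i ∨ w = M.length + j then tt else avF i (M.length + j) w) hL.range ?_
    refine Poly.flatMap (F := fun (p : List (List Bool) × ℕ) (j : ℕ) =>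
      (List.range (p.1.length + wid p.1)).map fun w =>
      if w = p.2 ∨ w = p.1.length + j then tt else avF p.2 (p.1.length + j) w)
      (hW.range.comp (Poly.fst Poly.id)) ?_
    refine Poly.map (F := fun (p : (List (List Bool) × ℕ) × ℕ) (w : ℕ) =>
      if w = p.1.2 ∨ w = p.1.1.length + p.2 then tt else avF p.1.2 (p.1.1.length + p.2) w)
      (hN.range.comp (Poly.fst (Poly.fst Poly.id))) ?_
    have e1 : Poly (fun q : ((List (List Bool) × ℕ) × ℕ) × ℕ => q.1.1.2) :=
      Poly.snd (Poly.fst (Poly.fst Poly.id))
    have e2 : Poly (fun q : ((List (List Bool) × ℕ) × ℕ) × ℕ => q.1.1.1.length + q.1.2) :=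
      Poly.add (Poly.length (Poly.fst (Poly.fst (Poly.fst Poly.id))))
        (Poly.snd (Poly.fst Poly.id))
    have w : Poly (fun q : ((List (List Bool) × ℕ) × ℕ) × ℕ => q.2) := Poly.snd Poly.id
    exact Poly.ite (Poly.decide_or (Poly.decide_eq w e1) (Poly.decide_eq w e2))
      (Poly.const _) (poly_avF e1 e2 w)
  · refine Poly.flatMap (F := fun (M : List (List Bool)) (i : ℕ) =>
      (List.range (wid M)).map fun j => shF (ent M i j) i (M.length + j)) hL.range ?_
    refine Poly.map (F := fun (p : List (List Bool) × ℕ) (j : ℕ) =>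
      shF (ent p.1 p.2 j) p.2 (p.1.length + j)) (hW.range.comp (Poly.fst Poly.id)) ?_
    have e0 : Poly (fun q : (List (List Bool) × ℕ) × ℕ => q.1.1) :=
      Poly.fst (Poly.fst Poly.id)
    have e1 : Poly (fun q : (List (List Bool) × ℕ) × ℕ => q.1.2) :=
      Poly.snd (Poly.fst Poly.id)
    have e2 : Poly (fun q : (List (List Bool) × ℕ) × ℕ => q.2) := Poly.snd Poly.id
    exact poly_shF (poly_ent e0 e1 e2) e1 (Poly.add (Poly.length e0) e2)

theorem poly_okB : Poly okB := by
  refine Poly.and (Poly.and (Poly.decide_le (Poly.const 1) (Poly.length Poly.id))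
    (Poly.decide_le (Poly.const 1) (UPoly.toPoly (upoly_wid Poly.id)))) ?_
  exact Poly.all (p := fun (M : List (List Bool)) (row : List Bool) =>
    decide (row.length = wid M)) Poly.id
    (Poly.decide_eq (Poly.length (Poly.snd Poly.id))
      (UPoly.toPoly (upoly_wid (Poly.fst Poly.id))))

theorem poly_form : Poly form := by
  unfold form
  exact Poly.ite (Poly.decide_bool poly_okB) (poly_conj poly_conds) (Poly.const _)

theorem poly_red : Poly red := by
  have hW : UPoly (fun M : List (List Bool) => 2 * wid M + 1) :=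
    UPoly.add (UPoly.mul (UPoly.const 2) (upoly_wid Poly.id)) (UPoly.const 1)
  refine Poly.cons ?_ ?_
  · refine (Poly.map (F := fun _ _ => false) hW.range (Poly.const _)).congr fun a => ?_
    simp
  · refine Poly.map (F := fun (_ : List (List Bool)) (row : List Bool) =>
      false :: (row ++ row.map fun b => !b)) Poly.id ?_
    refine Poly.cons (Poly.const _) (Poly.append (Poly.snd Poly.id) ?_)
    exact Poly.map (F := fun (_ : List (List Bool) × List Bool) (b : Bool) => !b)
      (Poly.snd Poly.id) (Poly.not (Poly.snd Poly.id))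

end

/-- Membership in `∃ℝ`. -/
theorem mem : InER (lang KLongShort) :=
  Pool.Agent.NPC.H670R2.InER.of_poly poly_form form_correct

theorem wid_red (M : List (List Bool)) : wid (red M) = 2 * wid M + 1 := by
  simp [wid, red]

theorem red_iff {m : ℕ} {M : List (List Bool)} (hM : Rect m M) :
    KLongShort (red M) ↔ ∃ q, P1 (M.length + 1) (2 * wid M + 1) (red M) q := by
  rw [kLongShort_iff, okB_iff, red_length, wid_red]
  constructor
  · rintro ⟨-, h⟩
    exact h
  · intro h
    exact ⟨⟨by omega, by omega, red_mat hM⟩, h⟩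

/-- Hardness for `∃ℝ`. -/
theorem hard {patOf : List Con → Pat} (h : IsPatOf patOf) : ERHard (lang KLongShort) := by
  refine ERHard.of_sys (f := fun S => red (matOf patOf 0 S))
    (poly_red.comp (h.poly_matOf 0)) fun S => ?_
  obtain ⟨m, hm⟩ := rect_matOf patOf 0 S
  constructor
  · intro hS
    exact (red_iff hm).2 (P1_of_SRN hm (h.srn (k := 0) hS))
  · intro hS
    obtain ⟨q, hq⟩ := (red_iff hm).1 hS
    exact h.sat (k := 0) (SR_of_P1 hm hq)

end Pool.Agent.NPC.W953BLS
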